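import Pool.Agent.AA.Asm

/-!
# Almost all even binary words are shuffle squares

The number of shuffle squares of length `2 m` over a two-letter alphabet, divided by the number
`2 ^ (2 m - 1)` of even words of length `2 m`, tends to `1`. So all but a proportion `o(1)` of the
even binary words of length `2 m` have cutting distance `0`.
-/

namespace Pool.Agent.Results.MP_7725c6_co.AlmostAll

open Pool.Agent.MP7725 Filter Topology

/-- Every shuffle square is even; zero cuts suffice exactly for the shuffle squares; there are
`2 ^ (2 m - 1)` even words of length `2 m`; and the proportion of the shuffle squares among the even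
words of length `2 m` tends to `1`. -/
theorem result :
    (∀ W : List Bool, IsShuffleSquare W → EvenWord W) ∧
    (∀ W : List Bool, CutsSuffice W 0 ↔ IsShuffleSquare W) ∧
    (∀ m : ℕ, 1 ≤ m →
      {W : List Bool | W.length = 2 * m ∧ EvenWord W}.ncard = 2 ^ (2 * m - 1)) ∧
    Tendsto (fun m : ℕ =>
      ({W : List Bool | W.length = 2 * m ∧ IsShuffleSquare W}.ncard : ℝ) /
        ({W : List Bool | W.length = 2 * m ∧ EvenWord W}.ncard : ℝ)) atTop (𝓝 1) :=
  ⟨fun _ h => Pool.Agent.AA.even_of_square h, Pool.Agent.AA.cutsSuffice_zero,
    Pool.Agent.AA.ncard_even, Pool.Agent.AA.tendsto_squares⟩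

end Pool.Agent.Results.MP_7725c6_co.AlmostAll
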