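import Pool.Agent.MP7725.Six

/-!
# Even binary words with at most eight runs

Every even binary word with at most eight runs has cutting distance at most two.
-/

namespace Pool.Agent.MP7725

open List

lemma cuts_acb {A B C : List Bool} (h : IsShuffleSquare (A ++ (C ++ B))) :
    CutsSuffice (A ++ (B ++ C)) 2 :=
  ⟨[A, B, C], [A, C, B], rfl, by simp, (Perm.swap _ _ _).cons _, by simpa using h⟩

lemma cuts_bac {A B C : List Bool} (h : IsShuffleSquare (B ++ (A ++ C))) :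
    CutsSuffice (A ++ (B ++ C)) 2 :=
  ⟨[A, B, C], [B, A, C], rfl, by simp, Perm.swap _ _ _, by simpa using h⟩

lemma cuts_cba {A B C : List Bool} (h : IsShuffleSquare (C ++ (B ++ A))) :
    CutsSuffice (A ++ (B ++ C)) 2 :=
  ⟨[A, B, C], [C, B, A], rfl, by simp, by simpa using (reverse_perm [A, B, C]),
    by simpa using h⟩

lemma cutDistance_le_of_le {W : List Bool} {c d : ℕ} (h : CutsSuffice W c) (hcd : c ≤ d) :
    CutsSuffice W (cutDistance W) ∧ cutDistance W ≤ d :=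
  ⟨(cutDistance_spec h).1, (cutDistance_spec h).2.trans hcd⟩

/-- Two-block certificate. -/
lemma six_two (x : Bool) (a₁ a₂ a₃ b₁ b₂ b₃ q p : ℕ) (ha : a₁ + a₂ + a₃ = 2 * q)
    (hb : b₁ + b₂ + b₃ = 2 * p) (h1 : q ≤ a₁) (h2 : p ≤ b₃) :
    IsShuffleSquare (six x a₁ b₁ a₂ b₂ a₃ b₃) := by
  obtain ⟨u, hu⟩ := Nat.exists_eq_add_of_le h1
  obtain ⟨w, hw⟩ := Nat.exists_eq_add_of_le h2
  have key := (Que.push (replicate q x)).trans ((que_transfer x
    (replicate u x ++ (replicate b₁ (!x) ++ (replicate a₂ x ++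
      (replicate b₂ (!x) ++ (replicate a₃ x ++ replicate w (!x)))))) q p
      (by simp [count_replicate]; omega) (by simp [count_replicate]; omega)).trans
      (Que.pop (replicate p (!x))))
  apply isShuffleSquare_of_que
  have e1 : replicate a₁ x = replicate q x ++ replicate u x := by
    rw [replicate_append_replicate]; congr 1
  have e2 : replicate b₃ (!x) = replicate w (!x) ++ replicate p (!x) := by
    rw [replicate_append_replicate]; congr 1; omega
  unfold six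
  rw [e1, e2]
  simpa only [append_assoc] using key

/-- The linear word with eight blocks. -/
def eight (x : Bool) (a₁ b₁ a₂ b₂ a₃ b₃ a₄ b₄ : ℕ) : List Bool :=
  replicate a₁ x ++ (replicate b₁ (!x) ++ (replicate a₂ x ++ (replicate b₂ (!x) ++
    (replicate a₃ x ++ (replicate b₃ (!x) ++ (replicate a₄ x ++ replicate b₄ (!x)))))))

section types

variable (x : Bool) (a₁ a₂ a₃ a₄ b₁ b₂ b₃ b₄ : ℕ)

lemma type33 (h : IsShuffleSquare (six x (a₁ + a₂) b₂ a₃ b₃ a₄ (b₄ + b₁))) :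
    CutsSuffice (eight x a₁ b₁ a₂ b₂ a₃ b₃ a₄ b₄) 2 :=
  cuts_acb (A := replicate a₁ x) (B := replicate b₁ (!x))
    (C := replicate a₂ x ++ (replicate b₂ (!x) ++ (replicate a₃ x ++ (replicate b₃ (!x) ++
      (replicate a₄ x ++ replicate b₄ (!x))))))
    (by simpa only [six, replicate_add, append_assoc] using h)

lemma type35 (h : IsShuffleSquare (six (!x) b₂ a₃ b₃ a₄ (b₄ + b₁) (a₂ + a₁))) :
    CutsSuffice (eight x a₁ b₁ a₂ b₂ a₃ b₃ a₄ b₄) 2 := by
  have := cuts_cba (A := replicate a₁ x) (B := replicate b₁ (!x) ++ replicate a₂ x)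
    (C := replicate b₂ (!x) ++ (replicate a₃ x ++ (replicate b₃ (!x) ++
      (replicate a₄ x ++ replicate b₄ (!x)))))
    (by simpa only [six, replicate_add, append_assoc, Bool.not_not] using h)
  simpa only [eight, append_assoc] using this

lemma type37 (h : IsShuffleSquare (six x (a₁ + a₃) b₃ a₄ (b₄ + b₁) a₂ b₂)) :
    CutsSuffice (eight x a₁ b₁ a₂ b₂ a₃ b₃ a₄ b₄) 2 := by
  have := cuts_acb (A := replicate a₁ x)
    (B := replicate b₁ (!x) ++ (replicate a₂ x ++ replicate b₂ (!x)))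
    (C := replicate a₃ x ++ (replicate b₃ (!x) ++ (replicate a₄ x ++ replicate b₄ (!x))))
    (by simpa only [six, replicate_add, append_assoc, Bool.not_not] using h)
  simpa only [eight, append_assoc] using this

lemma type39 (h : IsShuffleSquare (six (!x) b₃ a₄ (b₄ + b₁) a₂ b₂ (a₃ + a₁))) :
    CutsSuffice (eight x a₁ b₁ a₂ b₂ a₃ b₃ a₄ b₄) 2 := by
  have := cuts_cba (A := replicate a₁ x)
    (B := replicate b₁ (!x) ++ (replicate a₂ x ++ (replicate b₂ (!x) ++ replicate a₃ x)))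
    (C := replicate b₃ (!x) ++ (replicate a₄ x ++ replicate b₄ (!x)))
    (by simpa only [six, replicate_add, append_assoc, Bool.not_not] using h)
  simpa only [eight, append_assoc] using this

lemma type41 (h : IsShuffleSquare (six x (a₁ + a₄) (b₄ + b₁) a₂ b₂ a₃ b₃)) :
    CutsSuffice (eight x a₁ b₁ a₂ b₂ a₃ b₃ a₄ b₄) 2 := by
  have := cuts_acb (A := replicate a₁ x)
    (B := replicate b₁ (!x) ++ (replicate a₂ x ++ (replicate b₂ (!x) ++ (replicate a₃ x ++
      replicate b₃ (!x)))))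
    (C := replicate a₄ x ++ replicate b₄ (!x))
    (by simpa only [six, replicate_add, append_assoc, Bool.not_not] using h)
  simpa only [eight, append_assoc] using this

lemma type43 (h : IsShuffleSquare (six (!x) (b₄ + b₁) a₂ b₂ a₃ b₃ (a₄ + a₁))) :
    CutsSuffice (eight x a₁ b₁ a₂ b₂ a₃ b₃ a₄ b₄) 2 := by
  have := cuts_cba (A := replicate a₁ x)
    (B := replicate b₁ (!x) ++ (replicate a₂ x ++ (replicate b₂ (!x) ++ (replicate a₃ x ++
      (replicate b₃ (!x) ++ replicate a₄ x)))))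
    (C := replicate b₄ (!x))
    (by simpa only [six, replicate_add, append_assoc, Bool.not_not] using h)
  simpa only [eight, append_assoc] using this

lemma type78 (h : IsShuffleSquare (six (!x) (b₄ + b₂) a₃ b₃ (a₄ + a₁) b₁ a₂)) :
    CutsSuffice (eight x a₁ b₁ a₂ b₂ a₃ b₃ a₄ b₄) 2 := by
  have := cuts_cba (A := replicate a₁ x ++ (replicate b₁ (!x) ++ replicate a₂ x))
    (B := replicate b₂ (!x) ++ (replicate a₃ x ++ (replicate b₃ (!x) ++ replicate a₄ x)))
    (C := replicate b₄ (!x))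
    (by simpa only [six, replicate_add, append_assoc, Bool.not_not] using h)
  simpa only [eight, append_assoc] using this

lemma type93 (h : IsShuffleSquare (six x a₃ b₃ (a₄ + a₁) b₁ a₂ (b₂ + b₄))) :
    CutsSuffice (eight x a₁ b₁ a₂ b₂ a₃ b₃ a₄ b₄) 2 := by
  have := cuts_bac
    (A := replicate a₁ x ++ (replicate b₁ (!x) ++ (replicate a₂ x ++ replicate b₂ (!x))))
    (B := replicate a₃ x ++ (replicate b₃ (!x) ++ replicate a₄ x))
    (C := replicate b₄ (!x))
    (by simpa only [six, replicate_add, append_assoc, Bool.not_not] using h)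
  simpa only [eight, append_assoc] using this

lemma type97 (h : IsShuffleSquare (six (!x) (b₄ + b₃) (a₄ + a₁) b₁ a₂ b₂ a₃)) :
    CutsSuffice (eight x a₁ b₁ a₂ b₂ a₃ b₃ a₄ b₄) 2 := by
  have := cuts_cba
    (A := replicate a₁ x ++ (replicate b₁ (!x) ++ (replicate a₂ x ++ (replicate b₂ (!x) ++
      replicate a₃ x))))
    (B := replicate b₃ (!x) ++ replicate a₄ x)
    (C := replicate b₄ (!x))
    (by simpa only [six, replicate_add, append_assoc, Bool.not_not] using h)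
  simpa only [eight, append_assoc] using this

lemma type99 (h : IsShuffleSquare (six x (a₄ + a₁) b₁ a₂ b₂ a₃ (b₃ + b₄))) :
    CutsSuffice (eight x a₁ b₁ a₂ b₂ a₃ b₃ a₄ b₄) 2 := by
  have := cuts_bac
    (A := replicate a₁ x ++ (replicate b₁ (!x) ++ (replicate a₂ x ++ (replicate b₂ (!x) ++
      (replicate a₃ x ++ replicate b₃ (!x))))))
    (B := replicate a₄ x)
    (C := replicate b₄ (!x))
    (by simpa only [six, replicate_add, append_assoc, Bool.not_not] using h)
  simpa only [eight, append_assoc] using this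

lemma eight_rot : eight x a₁ b₁ a₂ b₂ a₃ b₃ a₄ b₄ ~r eight (!x) b₁ a₂ b₂ a₃ b₃ a₄ b₄ a₁ := by
  unfold eight
  rw [Bool.not_not]
  simpa only [append_assoc] using isRotated_append (l := replicate a₁ x)
    (l' := replicate b₁ (!x) ++ (replicate a₂ x ++
      (replicate b₂ (!x) ++ (replicate a₃ x ++ (replicate b₃ (!x) ++ (replicate a₄ x ++
        replicate b₄ (!x)))))))

lemma eight_rot' : eight x a₁ b₁ a₂ b₂ a₃ b₃ a₄ b₄ ~r eight x a₂ b₂ a₃ b₃ a₄ b₄ a₁ b₁ := by
  have h1 := eight_rot x a₁ a₂ a₃ a₄ b₁ b₂ b₃ b₄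
  have h2 := eight_rot (!x) b₁ b₂ b₃ b₄ a₂ a₃ a₄ a₁
  rw [Bool.not_not] at h2
  exact h1.trans h2

lemma eight_majority (he : EvenWord (eight x a₁ b₁ a₂ b₂ a₃ b₃ a₄ b₄))
    (h : a₂ + a₃ + a₄ ≤ a₁) : RotSquare (eight x a₁ b₁ a₂ b₂ a₃ b₃ a₄ b₄) := by
  refine rotSquare_of_majority x a₁ _ he ?_
  simp [count_replicate]
  omega

end types

lemma eight_count (x : Bool) (a₁ b₁ a₂ b₂ a₃ b₃ a₄ b₄ : ℕ) :
    (eight x a₁ b₁ a₂ b₂ a₃ b₃ a₄ b₄).count x = a₁ + a₂ + a₃ + a₄ := by
  simp [eight, count_replicate]; omega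

lemma eight_count' (x : Bool) (a₁ b₁ a₂ b₂ a₃ b₃ a₄ b₄ : ℕ) :
    (eight x a₁ b₁ a₂ b₂ a₃ b₃ a₄ b₄).count (!x) = b₁ + b₂ + b₃ + b₄ := by
  simp [eight, count_replicate]; omega

/-- Words with eight blocks. -/
lemma eight_cuts (x : Bool) (a₁ b₁ a₂ b₂ a₃ b₃ a₄ b₄ : ℕ)
    (he : EvenWord (eight x a₁ b₁ a₂ b₂ a₃ b₃ a₄ b₄)) :
    CutsSuffice (eight x a₁ b₁ a₂ b₂ a₃ b₃ a₄ b₄) 1 ∨
      CutsSuffice (eight x a₁ b₁ a₂ b₂ a₃ b₃ a₄ b₄) 2 := by
  have r1 := eight_rot x a₁ a₂ a₃ a₄ b₁ b₂ b₃ b₄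
  have r2 := eight_rot' x a₁ a₂ a₃ a₄ b₁ b₂ b₃ b₄
  have r3 := r1.trans (eight_rot' (!x) b₁ b₂ b₃ b₄ a₂ a₃ a₄ a₁)
  have r4 := r2.trans (eight_rot' x a₂ a₃ a₄ a₁ b₂ b₃ b₄ b₁)
  have r5 := r3.trans (eight_rot' (!x) b₂ b₃ b₄ b₁ a₃ a₄ a₁ a₂)
  have r6 := r4.trans (eight_rot' x a₃ a₄ a₁ a₂ b₃ b₄ b₁ b₂)
  have r7 := r5.trans (eight_rot' (!x) b₃ b₄ b₁ b₂ a₄ a₁ a₂ a₃)
  by_cases m1 : a₂ + a₃ + a₄ ≤ a₁
  · exact Or.inl (eight_majority x _ _ _ _ _ _ _ _ he m1).cutsSuffice
  by_cases m2 : a₃ + a₄ + a₁ ≤ a₂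
  · exact Or.inl ((eight_majority x _ _ _ _ _ _ _ _ (he.congr r2) m2).congr r2).cutsSuffice
  by_cases m3 : a₄ + a₁ + a₂ ≤ a₃
  · exact Or.inl ((eight_majority x _ _ _ _ _ _ _ _ (he.congr r4) m3).congr r4).cutsSuffice
  by_cases m4 : a₁ + a₂ + a₃ ≤ a₄
  · exact Or.inl ((eight_majority x _ _ _ _ _ _ _ _ (he.congr r6) m4).congr r6).cutsSuffice
  by_cases m5 : b₂ + b₃ + b₄ ≤ b₁
  · exact Or.inl ((eight_majority (!x) _ _ _ _ _ _ _ _ (he.congr r1) m5).congr r1).cutsSuffice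
  by_cases m6 : b₃ + b₄ + b₁ ≤ b₂
  · exact Or.inl ((eight_majority (!x) _ _ _ _ _ _ _ _ (he.congr r3) m6).congr r3).cutsSuffice
  by_cases m7 : b₄ + b₁ + b₂ ≤ b₃
  · exact Or.inl ((eight_majority (!x) _ _ _ _ _ _ _ _ (he.congr r5) m7).congr r5).cutsSuffice
  by_cases m8 : b₁ + b₂ + b₃ ≤ b₄
  · exact Or.inl ((eight_majority (!x) _ _ _ _ _ _ _ _ (he.congr r7) m8).congr r7).cutsSuffice
  right
  have hx := he x
  have hy := he (!x)
  rw [eight_count] at hx
  rw [eight_count'] at hy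
  obtain ⟨q, hq⟩ := hx
  obtain ⟨p, hp⟩ := hy
  -- the third block of the letter `x` is a largest one among the last three
  by_cases c1 : a₂ ≤ a₃ ∧ a₄ ≤ a₃
  · rcases le_total b₂ b₃ with h | h
    · exact type33 _ _ _ _ _ _ _ _ _ (six_square x _ _ _ _ _ _ q p (by omega) (by omega)
        (by omega) (by omega) (by omega) (by omega))
    · exact type43 _ _ _ _ _ _ _ _ _ (six_square (!x) _ _ _ _ _ _ p q (by omega) (by omega)
        (by omega) (by omega) (by omega) (by omega))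
  by_cases c4 : a₂ ≤ a₄ ∧ a₃ ≤ a₄
  · by_cases c5 : q ≤ a₁ + a₄
    · rcases le_total p (b₁ + b₄) with h | h
      · exact type43 _ _ _ _ _ _ _ _ _ (six_two (!x) _ _ _ _ _ _ p q (by omega) (by omega)
          (by omega) (by omega))
      rcases le_total b₃ (b₁ + b₄) with h' | h'
      · exact type37 _ _ _ _ _ _ _ _ _ (six_square x _ _ _ _ _ _ q p (by omega) (by omega)
          (by omega) (by omega) (by omega) (by omega))
      · exact type35 _ _ _ _ _ _ _ _ _ (six_square (!x) _ _ _ _ _ _ p q (by omega) (by omega)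
          (by omega) (by omega) (by omega) (by omega))
    · rcases le_total b₁ b₃ with h | h
      · exact type78 _ _ _ _ _ _ _ _ _ (six_square (!x) _ _ _ _ _ _ p q (by omega) (by omega)
          (by omega) (by omega) (by omega) (by omega))
      · exact type93 _ _ _ _ _ _ _ _ _ (six_square x _ _ _ _ _ _ q p (by omega) (by omega)
          (by omega) (by omega) (by omega) (by omega))
  by_cases c6 : q ≤ a₁ + a₂
  · rcases le_total p (b₁ + b₄) with h | h
    · exact type33 _ _ _ _ _ _ _ _ _ (six_two x _ _ _ _ _ _ q p (by omega) (by omega)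
        (by omega) (by omega))
    rcases le_total b₂ (b₁ + b₄) with h' | h'
    · exact type39 _ _ _ _ _ _ _ _ _ (six_square (!x) _ _ _ _ _ _ p q (by omega) (by omega)
        (by omega) (by omega) (by omega) (by omega))
    · exact type41 _ _ _ _ _ _ _ _ _ (six_square x _ _ _ _ _ _ q p (by omega) (by omega)
        (by omega) (by omega) (by omega) (by omega))
  by_cases c7 : a₂ ≤ a₁ + a₄
  · rcases le_total b₁ b₃ with h | h
    · exact type78 _ _ _ _ _ _ _ _ _ (six_square (!x) _ _ _ _ _ _ p q (by omega) (by omega)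
        (by omega) (by omega) (by omega) (by omega))
    · exact type93 _ _ _ _ _ _ _ _ _ (six_square x _ _ _ _ _ _ q p (by omega) (by omega)
        (by omega) (by omega) (by omega) (by omega))
  · rcases le_total b₁ b₂ with h | h
    · exact type99 _ _ _ _ _ _ _ _ _ (six_square x _ _ _ _ _ _ q p (by omega) (by omega)
        (by omega) (by omega) (by omega) (by omega))
    · exact type97 _ _ _ _ _ _ _ _ _ (six_square (!x) _ _ _ _ _ _ p q (by omega) (by omega)
        (by omega) (by omega) (by omega) (by omega))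

end Pool.Agent.MP7725

namespace Pool.Agent.Results.MP_7725c6_co.EightRuns

open Pool.Agent.MP7725 List

/-- Every even binary word with at most eight runs has cutting distance at most two. -/
theorem result (W : List Bool) (hW : EvenWord W) (hr : numRuns W ≤ 8) :
    CutsSuffice W (cutDistance W) ∧ cutDistance W ≤ 2 := by
  obtain ⟨x, ns, h1, h2⟩ := exists_alt_length hr
  obtain ⟨n₀, n₁, n₂, n₃, n₄, n₅, n₆, n₇, rfl⟩ : ∃ n₀ n₁ n₂ n₃ n₄ n₅ n₆ n₇,
      ns = [n₀, n₁, n₂, n₃, n₄, n₅, n₆, n₇] := by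
    match ns, h2 with
    | [n₀, n₁, n₂, n₃, n₄, n₅, n₆, n₇], _ => exact ⟨_, _, _, _, _, _, _, _, rfl⟩
  have h3 : W = eight x n₀ n₁ n₂ n₃ n₄ n₅ n₆ n₇ := by
    rw [h1]
    simp only [alt, eight, Bool.not_not, append_nil]
  rw [h3] at hW ⊢
  rcases eight_cuts x _ _ _ _ _ _ _ _ hW with h | h
  · exact cutDistance_le_of_le h (by norm_num)
  · exact cutDistance_le_of_le h le_rfl

end Pool.Agent.Results.MP_7725c6_co.EightRuns
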