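import Pool.Agent.MP7725.Log

/-!
# A logarithmic bound for the cutting distance of every even binary word

Every even binary word `W` of length `n` can be cut in at most `234 ⌊log₂ n⌋ + 53` places so that
the pieces, suitably reordered, form a shuffle square.
-/

namespace Pool.Agent.Results.MP_7725c6_co.LogBound

open Pool.Agent.MP7725

theorem result (W : List Bool) (hW : EvenWord W) :
    CutsSuffice W (cutDistance W) ∧ cutDistance W ≤ 234 * Nat.log 2 W.length + 53 :=
  cutDistance_spec (cutsSuffice_log W hW)

end Pool.Agent.Results.MP_7725c6_co.LogBound
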