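import Pool.Agent.MP7725.Six

/-!
# Even binary words with at most seven runs

Every even binary word with at most seven runs has a cyclic rotation that is a shuffle square.
-/

namespace Pool.Agent.Results.MP_7725c6_co.SevenRuns

open Pool.Agent.MP7725 List

/-- Every even binary word with at most seven runs has cutting distance at most one. -/
theorem result (W : List Bool) (hW : EvenWord W) (hr : numRuns W ≤ 7) :
    CutsSuffice W (cutDistance W) ∧ cutDistance W ≤ 1 := by
  refine cutDistance_spec (RotSquare.cutsSuffice ?_)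
  obtain ⟨x, ns, h1, h2⟩ := exists_alt_length hr
  obtain ⟨n₀, n₁, n₂, n₃, n₄, n₅, n₆, rfl⟩ : ∃ n₀ n₁ n₂ n₃ n₄ n₅ n₆,
      ns = [n₀, n₁, n₂, n₃, n₄, n₅, n₆] := by
    match ns, h2 with
    | [n₀, n₁, n₂, n₃, n₄, n₅, n₆], _ => exact ⟨_, _, _, _, _, _, _, rfl⟩
  have h3 : W ~r six x (n₆ + n₀) n₁ n₂ n₃ n₄ n₅ := by
    rw [h1]
    have e := isRotated_append
      (l := replicate n₀ x ++ (replicate n₁ (!x) ++ (replicate n₂ x ++
        (replicate n₃ (!x) ++ (replicate n₄ x ++ replicate n₅ (!x))))))
      (l' := replicate n₆ x)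
    have e1 : replicate (n₆ + n₀) x = replicate n₆ x ++ replicate n₀ x := by
      rw [replicate_append_replicate]
    simpa only [alt, six, Bool.not_not, append_assoc, append_nil, e1] using e
  exact (six_rotSquare x _ _ _ _ _ _ (hW.congr h3)).congr h3

end Pool.Agent.Results.MP_7725c6_co.SevenRuns
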